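import Pool.Agent.Helper72.AI.Stmts

set_option autoImplicit false

namespace Helper28.AI

open AffInc Metric

lemma infDist_convex {G : Set (ℝ × ℝ)} (hG : Convex ℝ G) (hne : G.Nonempty) (p q : ℝ × ℝ)
    {a b : ℝ} (ha : 0 ≤ a) (hb : 0 ≤ b) (hab : a + b = 1) :
    infDist (a • p + b • q) G ≤ a * infDist p G + b * infDist q G := by
  refine le_of_forall_pos_le_add (fun ε hε => ?_)
  obtain ⟨x, hx, hpx⟩ := (infDist_lt_iff hne).1 (lt_add_of_pos_right (infDist p G) hε)
  obtain ⟨y, hy, hqy⟩ := (infDist_lt_iff hne).1 (lt_add_of_pos_right (infDist q G) hε)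
  have h1 : infDist (a • p + b • q) G ≤ dist (a • p + b • q) (a • x + b • y) :=
    infDist_le_dist_of_mem (hG hx hy ha hb hab)
  have h2 : dist (a • p + b • q) (a • x + b • y) ≤ a * dist p x + b * dist q y := by
    rw [dist_eq_norm, dist_eq_norm, dist_eq_norm]
    have e : a • p + b • q - (a • x + b • y) = a • (p - x) + b • (q - y) := by
      simp only [smul_sub]; abel
    rw [e]
    refine (norm_add_le _ _).trans ?_
    rw [norm_smul, norm_smul, Real.norm_of_nonneg ha, Real.norm_of_nonneg hb]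
  nlinarith [mul_le_mul_of_nonneg_left hpx.le ha, mul_le_mul_of_nonneg_left hqy.le hb]

theorem pf_S_approx : AffInc.S_approx := by
  intro G ε hG hε
  have hne : G.Nonempty := hG.int.mono interior_subset
  obtain ⟨B, hB⟩ := hG.cpt.isBounded.subset_closedBall (0 : ℝ × ℝ)
  -- bound of squares
  obtain ⟨R, hR0, hR⟩ : ∃ R : ℝ, 0 < R ∧ ∀ p ∈ G, p.1 ^ 2 + p.2 ^ 2 ≤ R := by
    refine ⟨2 * B ^ 2 + 1, by positivity, fun p hp => ?_⟩
    have h1 := hB hp
    rw [mem_closedBall_zero_iff] at h1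
    have h2 : |p.1| ≤ B := (norm_fst_le p).trans h1
    have h3 : |p.2| ≤ B := (norm_snd_le p).trans h1
    have h4 := sq_abs p.1
    have h5 := sq_abs p.2
    have h6 : |p.1| ^ 2 ≤ B ^ 2 := by gcongr
    have h7 : |p.2| ^ 2 ≤ B ^ 2 := by gcongr
    linarith
  set δ := ε / R with hδ
  have hδ0 : 0 < δ := div_pos hε hR0
  have hδR : δ * R = ε := by rw [hδ]; field_simp
  let f : ℝ × ℝ → ℝ := fun p => infDist p G + δ * (p.1 ^ 2 + p.2 ^ 2 - R)
  have hf : Continuous f := by
    have := continuous_infDist_pt (s := G)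
    fun_prop
  have hGf : ∀ p ∈ G, f p ≤ 0 := by
    intro p hp
    have h1 := infDist_zero_of_mem hp
    have h2 := hR p hp
    show infDist p G + δ * (p.1 ^ 2 + p.2 ^ 2 - R) ≤ 0
    rw [h1]
    nlinarith
  refine ⟨{p | f p ≤ 0}, ?_, ?_, hGf, ?_⟩
  · intro p hp q hq hpq a b ha hb hab
    have hlt : f (a • p + b • q) < 0 := by
      have h1 := infDist_convex hG.cvx hne p q ha.le hb.le hab
      have hp' : infDist p G + δ * (p.1 ^ 2 + p.2 ^ 2 - R) ≤ 0 := hp
      have hq' : infDist q G + δ * (q.1 ^ 2 + q.2 ^ 2 - R) ≤ 0 := hq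
      have hpos : 0 < (p.1 - q.1) ^ 2 + (p.2 - q.2) ^ 2 := by
        rcases lt_or_eq_of_le (by positivity : 0 ≤ (p.1 - q.1) ^ 2 + (p.2 - q.2) ^ 2) with h | h
        · exact h
        · exfalso
          apply hpq
          have e1 : (p.1 - q.1) ^ 2 = 0 := by nlinarith [sq_nonneg (p.1 - q.1), sq_nonneg (p.2 - q.2)]
          have e2 : (p.2 - q.2) ^ 2 = 0 := by nlinarith [sq_nonneg (p.1 - q.1), sq_nonneg (p.2 - q.2)]
          ext
          · nlinarith [pow_eq_zero_iff (two_ne_zero) |>.1 e1]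
          · nlinarith [pow_eq_zero_iff (two_ne_zero) |>.1 e2]
      have hsq : (a • p + b • q).1 ^ 2 + (a • p + b • q).2 ^ 2 =
          a * (p.1 ^ 2 + p.2 ^ 2) + b * (q.1 ^ 2 + q.2 ^ 2) -
            a * b * ((p.1 - q.1) ^ 2 + (p.2 - q.2) ^ 2) := by
        have hb' : b = 1 - a := by linarith
        simp only [Prod.fst_add, Prod.snd_add, Prod.smul_fst, Prod.smul_snd, smul_eq_mul]
        rw [hb']; ring
      show infDist (a • p + b • q) G +
        δ * ((a • p + b • q).1 ^ 2 + (a • p + b • q).2 ^ 2 - R) < 0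
      rw [hsq]
      have h2 : 0 < δ * (a * b * ((p.1 - q.1) ^ 2 + (p.2 - q.2) ^ 2)) := by positivity
      have h3 := mul_le_mul_of_nonneg_left hp' ha.le
      have h4 := mul_le_mul_of_nonneg_left hq' hb.le
      have hR' : δ * R = a * (δ * R) + b * (δ * R) := by rw [← add_mul, hab, one_mul]
      nlinarith
    exact mem_interior.2 ⟨{x | f x < 0}, fun x (hx : f x < 0) => hx.le,
      isOpen_lt hf continuous_const, hlt⟩
  · rw [Metric.isCompact_iff_isClosed_bounded]
    refine ⟨isClosed_le hf continuous_const, ?_⟩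
    refine (Metric.isBounded_closedBall (x := (0 : ℝ × ℝ)) (r := R + 1)).subset ?_
    intro p hp
    have hp' : infDist p G + δ * (p.1 ^ 2 + p.2 ^ 2 - R) ≤ 0 := hp
    have h1 : 0 ≤ infDist p G := infDist_nonneg
    have h2 : p.1 ^ 2 + p.2 ^ 2 ≤ R := by
      by_contra hc
      push Not at hc
      have : 0 < δ * (p.1 ^ 2 + p.2 ^ 2 - R) := mul_pos hδ0 (by linarith)
      linarith
    rw [mem_closedBall_zero_iff, Prod.norm_def, max_le_iff, Real.norm_eq_abs, Real.norm_eq_abs]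
    constructor
    · rw [abs_le]; constructor <;> nlinarith [sq_nonneg (p.1 - 1), sq_nonneg (p.1 + 1), sq_nonneg p.2]
    · rw [abs_le]; constructor <;> nlinarith [sq_nonneg (p.2 - 1), sq_nonneg (p.2 + 1), sq_nonneg p.1]
  · intro p hp
    have hp' : infDist p G + δ * (p.1 ^ 2 + p.2 ^ 2 - R) ≤ 0 := hp
    have h3 : infDist p G ≤ ε := by
      have := mul_nonneg hδ0.le (by positivity : 0 ≤ p.1 ^ 2 + p.2 ^ 2)
      nlinarith
    rw [mem_cthickening_iff]
    rw [infDist] at h3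
    exact (ENNReal.le_ofReal_iff_toReal_le (infEDist_ne_top hne) hε.le).2 h3

end Helper28.AI
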